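import Pool.Agent.Y547.UE.HD
import Pool.Agent.Q5.Cheb.Chars

/-!
# Points on `y ^ p = x (a - x) ^ k` over the extensions of a prime field
-/

set_option autoImplicit false
set_option linter.unusedSectionVars false

namespace Pool.Agent.Q5.Jac

open Finset Pool.Agent.Y547.UE Pool.Agent.Q5.Cheb

section
variable {E : Type} [Field E] [Fintype E] [DecidableEq E]

theorem card_roots {p : ℕ} (χ : MulChar E ℂ) (hχ : orderOf χ = p) (hp : 0 < p) (z : E) :
    ((#(univ.filter (fun y : E => y ^ p = z)) : ℕ) : ℂ) =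
      1 + ∑ j ∈ range (p - 1), (χ ^ (j + 1)) z := by
  by_cases hz : z = 0
  · subst hz
    have h1 : univ.filter (fun y : E => y ^ p = 0) = {0} := by
      ext y
      simp only [mem_filter, mem_univ, true_and, mem_singleton]
      exact ⟨fun h => pow_eq_zero_iff hp.ne' |>.1 h, fun h => by rw [h, zero_pow hp.ne']⟩
    rw [h1, card_singleton, sum_eq_zero fun j _ => MulChar.map_zero _]
    simp
  · have h1 := sum_pow_char χ hχ hp (fun w => if w = z then (1 : ℂ) else 0) (by
      rw [if_neg (Ne.symm hz)])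
    simp only [mul_ite, mul_one, mul_zero, sum_ite_eq', mem_univ, if_true] at h1
    rw [sum_boole] at h1
    rw [← h1]
    obtain ⟨m, hm⟩ : ∃ m, p = m + 1 := ⟨p - 1, by omega⟩
    rw [hm, Nat.add_sub_cancel, sum_range_succ']
    rw [pow_zero, show (1 : MulChar E ℂ) z = 1 from MulChar.one_apply_coe (Units.mk0 z hz)]
    ring

theorem sum_scale (φ ψ : MulChar E ℂ) {a : E} (ha : a ≠ 0) :
    ∑ x : E, φ x * ψ (a - x) = (φ * ψ) a * jacobiSum φ ψ := by
  unfold jacobiSum
  rw [mul_sum, ← Equiv.sum_comp (Equiv.mulLeft₀ a ha)]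
  refine sum_congr rfl fun x _ => ?_
  have h0 : Equiv.mulLeft₀ a ha x = a * x := rfl
  have h1 : a - a * x = a * (1 - x) := by ring
  rw [h0, h1, map_mul, map_mul, MulChar.mul_apply]
  ring

theorem count {p k : ℕ} (χ : MulChar E ℂ) (hχ : orderOf χ = p) (hp : 0 < p) (hk : 0 < k)
    {a : E} (ha : a ≠ 0) :
    ((Nat.card {P : E × E // P.2 ^ p = P.1 * (a - P.1) ^ k} : ℕ) : ℂ) =
      Fintype.card E + ∑ j ∈ range (p - 1),
        (χ ^ (j + 1) * (χ ^ (j + 1)) ^ k) a * jacobiSum (χ ^ (j + 1)) ((χ ^ (j + 1)) ^ k) := by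
  have h1 : Nat.card {P : E × E // P.2 ^ p = P.1 * (a - P.1) ^ k} =
      ∑ x : E, #(univ.filter (fun y : E => y ^ p = x * (a - x) ^ k)) := by
    rw [Nat.card_eq_fintype_card, Fintype.card_subtype, card_eq_sum_ones, sum_filter,
      Fintype.sum_prod_type]
    refine sum_congr rfl fun x _ => ?_
    rw [card_eq_sum_ones, sum_filter]
  rw [h1]
  push_cast
  rw [sum_congr rfl fun x _ => card_roots χ hχ hp _, sum_add_distrib, sum_const, card_univ,
    nsmul_eq_mul, mul_one, sum_comm]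
  congr 1
  refine sum_congr rfl fun j _ => ?_
  rw [← sum_scale _ _ ha]
  refine sum_congr rfl fun x _ => ?_
  rw [map_mul, map_pow, MulChar.pow_apply' (χ ^ (j + 1)) hk.ne']

end

section
variable {F : Type} [Field F] [Fintype F] (E : Type) [Field E] [Fintype E] [Algebra F E]

theorem nch_pow (χ : MulChar F ℂ) (n : ℕ) : nch E (χ ^ n) = nch E χ ^ n := by
  have : Module.Finite F E := Module.Finite.of_finite
  induction n with
  | zero =>
    ext x
    rw [pow_zero, pow_zero, nch_apply, MulChar.one_apply_coe]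
    have h : IsUnit (Algebra.norm F (x : E)) := by
      rw [isUnit_iff_ne_zero, Ne, Algebra.norm_eq_zero_iff]
      exact x.ne_zero
    rw [MulChar.one_apply h]
  | succ n ih => rw [pow_succ, pow_succ, nch_mul, ih]

theorem nch_order {χ : MulChar F ℂ} {p : ℕ} (hp : p.Prime) (hχ : orderOf χ = p) :
    orderOf (nch E χ) = p := by
  have : Fact p.Prime := ⟨hp⟩
  apply orderOf_eq_prime
  · rw [← nch_pow, ← hχ, pow_orderOf_eq_one, ← pow_zero χ, nch_pow, pow_zero]
  · apply nch_ne_one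
    rintro rfl
    rw [orderOf_one] at hχ
    exact hp.one_lt.ne hχ

end

/-- The number of points of the smooth projective model. -/
noncomputable def numPoints (p k : ℕ) (a : ℤ) (E : Type) [Field E] : ℕ :=
  Nat.card {P : E × E // P.2 ^ p = P.1 * ((a : E) - P.1) ^ k} + 1

/-- The inverse roots. -/
noncomputable def alpha (p k : ℕ) (a : ℤ) {l : ℕ} [Fact l.Prime] (χ : MulChar (ZMod l) ℂ)
    (j : Fin (p - 1)) : ℂ :=
  - ((χ ^ ((j : ℕ) + 1) * (χ ^ ((j : ℕ) + 1)) ^ k) (a : ZMod l) *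
    jacobiSum (χ ^ ((j : ℕ) + 1)) ((χ ^ ((j : ℕ) + 1)) ^ k))

theorem weil {p k l : ℕ} [Fact l.Prime] (hp : p.Prime) (hk : 0 < k) (hkp : k + 1 < p) (a : ℤ)
    (ha : ((a : ZMod l)) ≠ 0) (χ : MulChar (ZMod l) ℂ) (hχ : orderOf χ = p)
    (n : ℕ) (hn : 1 ≤ n) (E : Type) [Field E] (hE : Nat.card E = l ^ n) :
    (numPoints p k a E : ℂ) = (l : ℂ) ^ n + 1 - ∑ j, alpha p k a χ j ^ n := by
  classical
  have hl : l.Prime := Fact.out
  have hpos : 0 < Nat.card E := by rw [hE]; exact pow_pos hl.pos _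
  have : Finite E := (Nat.card_pos_iff.1 hpos).2
  have := Fintype.ofFinite E
  rw [Nat.card_eq_fintype_card] at hE
  have hchar : CharP E l := by
    obtain ⟨l', hl'⟩ := CharP.exists E
    obtain ⟨m, hm, hm2⟩ := FiniteField.card E l'
    rw [hE] at hm2
    have h1 : l ∣ l' ^ (m : ℕ) := hm2 ▸ dvd_pow_self l (by omega)
    have h2 := hl.dvd_of_dvd_pow h1
    rw [(Nat.prime_dvd_prime_iff_eq hl hm).1 h2]
    exact hl'
  let _ := ZMod.algebra E l
  have : Module.Finite (ZMod l) E := Module.Finite.of_finite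
  have hfr : Module.finrank (ZMod l) E = n := by
    have h1 := Module.card_eq_pow_finrank (K := ZMod l) (V := E)
    rw [ZMod.card, hE] at h1
    exact (Nat.pow_right_injective hl.two_le h1).symm
  have haE : (a : E) = algebraMap (ZMod l) E (a : ZMod l) := (map_intCast _ _).symm
  have haE0 : (a : E) ≠ 0 := by
    rw [haE, Ne, FaithfulSMul.algebraMap_eq_zero_iff]; exact ha
  have hψ : AddChar.FiniteField.primitiveChar_to_Complex (ZMod l) ≠ 1 := by
    intro h
    have h4 := AddChar.FiniteField.primitiveChar_to_Complex_isPrimitive (ZMod l) one_ne_zero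
    apply h4
    rw [h]
    ext; simp
  unfold numPoints
  push_cast
  rw [count (nch E χ) (nch_order E hp hχ) hp.pos hk haE0, hE, Finset.sum_range]
  have key : ∀ j : Fin (p - 1),
      (nch E χ ^ ((j : ℕ) + 1) * (nch E χ ^ ((j : ℕ) + 1)) ^ k) (a : E) *
        jacobiSum (nch E χ ^ ((j : ℕ) + 1)) ((nch E χ ^ ((j : ℕ) + 1)) ^ k) =
      - alpha p k a χ j ^ n := by
    intro j
    rw [← nch_pow, ← nch_pow, ← nch_mul]
    have h1 : χ ^ ((j : ℕ) + 1) * (χ ^ ((j : ℕ) + 1)) ^ k ≠ 1 := by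
      intro h
      rw [← pow_succ', ← pow_mul] at h
      have h2 := orderOf_dvd_of_pow_eq_one h
      rw [hχ, hp.dvd_mul] at h2
      have hj := j.2
      rcases h2 with h2 | h2
      · have := Nat.le_of_dvd (by omega) h2
        omega
      · have := Nat.le_of_dvd (by omega) h2
        omega
    rw [js_nch E h1 hψ, nch_apply, haE, Algebra.norm_algebraMap, hfr, map_pow]
    unfold alpha
    obtain ⟨m, hm⟩ : ∃ m, n = m + 1 := ⟨n - 1, by omega⟩
    rw [hm, Nat.add_sub_cancel]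
    generalize (χ ^ ((j : ℕ) + 1) * (χ ^ ((j : ℕ) + 1)) ^ k) (a : ZMod l) = A
    generalize jacobiSum (χ ^ ((j : ℕ) + 1)) ((χ ^ ((j : ℕ) + 1)) ^ k) = B
    have h3 : (-(A * B)) ^ (m + 1) = (-1) ^ m * (-1) * (A ^ (m + 1) * B ^ (m + 1)) := by
      rw [neg_pow (A * B), mul_pow, pow_succ (-1 : ℂ)]
    rw [h3]
    ring
  rw [sum_congr rfl fun j _ => key j, sum_neg_distrib]
  push_cast
  ring

end Pool.Agent.Q5.Jac
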