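import Pool.Agent.Q5.Jac.Num

/-!
# The order of the Jacobian is even
-/

set_option autoImplicit false

namespace Pool.Agent.Q5.Jac

open Finset

def ti (n : ℕ) : ℕ := tab.getD n 0

set_option maxRecDepth 100000 in
theorem ti_spec : ∀ n ∈ Finset.Icc 1 198, 3 ^ (ti n) % 199 = n := by
  decide +kernel

set_option maxRecDepth 100000 in
theorem cnt_spec : ∀ c ∈ Finset.range 11,
    #((Finset.Icc 2 198).filter (fun x => (ti x + 2 * ti (200 - x)) % 11 = c)) =
      ([20, 20, 12, 19, 14, 18, 18, 24, 22, 20, 10] : List ℕ).getD c 0 := by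
  decide +kernel

instance : Fact (Nat.Prime 199) := ⟨by norm_num⟩

section
variable (φ : MulChar (ZMod 199) ℂ)

theorem phi_nat {n : ℕ} (h1 : 1 ≤ n) (h2 : n ≤ 198) : φ (n : ZMod 199) = φ 3 ^ ti n := by
  rw [← map_pow]
  congr 1
  have h := ti_spec n (Finset.mem_Icc.2 ⟨h1, h2⟩)
  have h3 : ((3 ^ ti n : ℕ) : ZMod 199) = ((n : ℕ) : ZMod 199) := by
    rw [ZMod.natCast_eq_natCast_iff']
    rw [h, Nat.mod_eq_of_lt (by omega)]
  rw [← h3]
  push_cast
  rfl

theorem pow_mod11 {z : ℂ} (hz : z ^ 11 = 1) (n : ℕ) : z ^ n = z ^ (n % 11) := by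
  conv_lhs => rw [← Nat.div_add_mod n 11, pow_add, pow_mul, hz, one_pow, one_mul]

theorem jac_eq (hφ : φ ^ 11 = 1) : jacobiSum φ (φ ^ 2) = Jz (φ 3) := by
  have hz : φ 3 ^ 11 = 1 := by
    have h3 : (3 : ZMod 199) ≠ 0 := by decide
    have := MulChar.pow_apply_coe φ 11 (Units.mk0 (3 : ZMod 199) h3)
    rw [Units.val_mk0] at this
    rw [← this, hφ]
    exact MulChar.one_apply_coe (Units.mk0 (3 : ZMod 199) h3)
  have h1 : jacobiSum φ (φ ^ 2) =
      ∑ n ∈ Finset.range 199, φ (n : ZMod 199) * (φ ^ 2) (1 - (n : ZMod 199)) := by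
    unfold jacobiSum
    symm
    apply sum_nbij' (fun n : ℕ => (n : ZMod 199)) ZMod.val
    · intro n _; exact mem_univ _
    · intro x _; exact mem_range.2 (ZMod.val_lt x)
    · intro n hn
      rw [ZMod.val_natCast, Nat.mod_eq_of_lt (mem_range.1 hn)]
    · intro x _; exact ZMod.natCast_zmod_val x
    · intro n _; rfl
  have h2 : ∑ n ∈ Finset.range 199, φ (n : ZMod 199) * (φ ^ 2) (1 - (n : ZMod 199)) =
      ∑ n ∈ Finset.Icc (2 : ℕ) 198, φ ((n : ℕ) : ZMod 199) * (φ ^ 2) (1 - (n : ZMod 199)) := by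
    symm
    apply sum_subset
    · intro n hn
      rw [mem_Icc] at hn
      exact mem_range.2 (by omega)
    · intro n hn hn'
      rw [mem_range] at hn
      rw [mem_Icc] at hn'
      have : n = 0 ∨ n = 1 := by omega
      rcases this with rfl | rfl
      · rw [Nat.cast_zero, MulChar.map_zero, zero_mul]
      · rw [Nat.cast_one, sub_self, MulChar.map_zero, mul_zero]
  have h3 : ∀ n ∈ Finset.Icc (2 : ℕ) 198, φ (n : ZMod 199) * (φ ^ 2) (1 - (n : ZMod 199)) =
      φ 3 ^ ((ti n + 2 * ti (200 - n)) % 11) := by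
    intro n hn
    rw [mem_Icc] at hn
    have h4 : (1 - (n : ZMod 199)) = ((200 - n : ℕ) : ZMod 199) := by
      rw [Nat.cast_sub (by omega)]
      have : ((200 : ℕ) : ZMod 199) = 1 := by decide
      rw [this]
    rw [h4, MulChar.pow_apply' φ two_ne_zero, phi_nat φ (by omega) hn.2,
      phi_nat φ (by omega) (by omega), ← pow_mod11 hz, pow_add, ← pow_mul, mul_comm 2]
  rw [h1, h2, sum_congr rfl h3]
  have h5 : ∀ n ∈ Finset.Icc (2 : ℕ) 198, (ti n + 2 * ti (200 - n)) % 11 ∈ Finset.range 11 :=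
    fun n _ => mem_range.2 (Nat.mod_lt _ (by norm_num))
  rw [← sum_fiberwise_of_maps_to h5]
  have h6 : ∀ c ∈ Finset.range 11,
      ∑ n ∈ (Finset.Icc (2 : ℕ) 198).filter (fun x => (ti x + 2 * ti (200 - x)) % 11 = c),
        φ 3 ^ ((ti n + 2 * ti (200 - n)) % 11) =
      ((([20, 20, 12, 19, 14, 18, 18, 24, 22, 20, 10] : List ℕ).getD c 0 : ℕ) : ℂ) * φ 3 ^ c := by
    intro c hc
    rw [sum_congr rfl (fun n hn => by rw [(mem_filter.1 hn).2]), sum_const, nsmul_eq_mul,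
      cnt_spec c hc]
  rw [sum_congr rfl h6]
  simp only [sum_range_succ, sum_range_zero, List.getD_cons_zero, List.getD_cons_succ, zero_add]
  unfold Jz
  push_cast
  ring

end

theorem main_num : ∃ χ : MulChar (ZMod 199) ℂ, orderOf χ = 11 ∧
    ∏ j : Fin (11 - 1), (1 - alpha 11 2 8 χ j) = 332998454272 := by
  obtain ⟨χ, hχ⟩ : ∃ χ : MulChar (ZMod 199) ℂ, orderOf χ = 11 :=
    MulChar.exists_mulChar_orderOf (ZMod 199) (by rw [ZMod.card]; norm_num)
      (Complex.isPrimitiveRoot_exp 11 (by norm_num))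
  refine ⟨χ, hχ, ?_⟩
  have h3 : (3 : ZMod 199) ≠ 0 := by decide
  have hpow : χ ^ 11 = 1 := by rw [← hχ, pow_orderOf_eq_one]
  have hz : χ 3 ^ 11 = 1 := by
    have := MulChar.pow_apply_coe χ 11 (Units.mk0 (3 : ZMod 199) h3)
    rw [Units.val_mk0] at this
    rw [← this, hpow]
    exact MulChar.one_apply_coe (Units.mk0 (3 : ZMod 199) h3)
  have hz1 : χ 3 ≠ 1 := by
    intro h
    have : χ = 1 := by
      ext u
      rw [MulChar.one_apply_coe]
      have h1 : (u : ZMod 199) = (((u : ZMod 199).val : ℕ) : ZMod 199) :=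
        (ZMod.natCast_zmod_val _).symm
      have h2 : 1 ≤ (u : ZMod 199).val := by
        rcases Nat.eq_zero_or_pos (u : ZMod 199).val with h0 | h0
        · exact absurd ((ZMod.val_eq_zero _).1 h0) u.ne_zero
        · exact h0
      have h4 : (u : ZMod 199).val ≤ 198 := by
        have := ZMod.val_lt (u : ZMod 199)
        omega
      rw [h1, phi_nat χ h2 h4, h, one_pow]
    rw [this, orderOf_one] at hχ
    norm_num at hχ
  rw [← prod_eq (χ 3) hz hz1]
  show ∏ j : Fin 10, (1 - alpha 11 2 8 χ j) = _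
  refine prod_congr rfl fun j _ => ?_
  set φ := χ ^ ((j : ℕ) + 1) with hφ
  have hφ11 : φ ^ 11 = 1 := by rw [hφ, ← pow_mul, mul_comm, pow_mul, hpow, one_pow]
  have hφ3 : φ 3 = χ 3 ^ ((j : ℕ) + 1) := by
    have := MulChar.pow_apply_coe χ ((j : ℕ) + 1) (Units.mk0 (3 : ZMod 199) h3)
    rw [Units.val_mk0] at this
    exact this
  have hφz : φ 3 ^ 11 = 1 := by
    rw [hφ3, ← pow_mul, mul_comm, pow_mul, hz, one_pow]
  unfold alpha
  rw [← hφ, jac_eq φ hφ11, ← hφ3, ← FJ (φ 3) hφz]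
  have h8 : (φ * φ ^ 2) (((8 : ℤ) : ZMod 199)) = φ 3 ^ 8 := by
    have e : (((8 : ℤ) : ZMod 199)) = ((8 : ℕ) : ZMod 199) := by norm_cast
    rw [← pow_succ', MulChar.pow_apply' φ (by norm_num), e, phi_nat φ (by norm_num) (by norm_num)]
    have h9 : ti 8 = 120 := by decide +kernel
    rw [h9, ← pow_mul, pow_mod11 hφz (120 * (2 + 1))]
  rw [h8]
  ring

end Pool.Agent.Q5.Jac
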