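import Pool.Agent.Q5.Jac.Count

/-!
# The numerical data for `p = 11`, `l = 199`, `k = 2`, `a = 8`
-/

set_option autoImplicit false

namespace Pool.Agent.Q5.Jac

open Finset

/-- The indices modulo `199` with respect to the primitive root `3`. -/
def tab : List ℕ := [0, 0, 106, 1, 14, 138, 107, 142, 120, 2, 46, 189, 15, 172, 50, 139, 28, 123, 108, 55, 152, 143, 97, 118, 121, 78, 80, 3, 156, 70, 47, 164, 134, 190, 31, 82, 16, 11, 161, 173, 60, 167, 51, 88, 5, 140, 26, 76, 29, 86, 184, 124, 186, 158, 109, 129, 64, 56, 176, 195, 153, 126, 72, 144, 42, 112, 98, 105, 137, 119, 188, 49, 122, 151, 117, 79, 69, 133, 81, 160, 166, 4, 75, 183, 157, 63, 194, 71, 111, 136, 48, 116, 132, 165, 182, 193, 135, 131, 192, 191, 92, 93, 32, 36, 94, 83, 66, 33, 17, 147, 37, 12, 170, 95, 162, 58, 84, 174, 103, 67, 61, 180, 34, 168, 178, 18, 52, 23, 148,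 89, 20, 38, 6, 197, 13, 141, 45, 171, 27, 54, 96, 77, 155, 163, 30, 10, 59, 87, 25, 85, 185, 128, 175, 125, 41, 104, 187, 150, 68, 159, 74, 62, 110, 115, 181, 130, 91, 35, 65, 146, 169, 57, 102, 179, 177, 22, 19, 196, 44, 53, 154, 9, 24, 127, 40, 149, 73, 114, 90, 145, 101, 21, 43, 8, 39, 113, 100, 7, 99]

/-- The value `1 - α` as a polynomial in the root of unity. -/
def Fz (z : ℂ) : ℂ := (20) + (14) * z + (18) * z ^ 2 + (18) * z ^ 3 + (24) * z ^ 4 + (22) * z ^ 5 + (20) * z ^ 6 + (10) * z ^ 7 + (20) * z ^ 8 + (20) * z ^ 9 + (12) * z ^ 10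

theorem F2 (z : ℂ) (h : z ^ 11 = 1) : Fz (z ^ 2) = (20) + (20) * z + (14) * z ^ 2 + (10) * z ^ 3 + (18) * z ^ 4 + (20) * z ^ 5 + (18) * z ^ 6 + (20) * z ^ 7 + (24) * z ^ 8 + (12) * z ^ 9 + (22) * z ^ 10 := by
  unfold Fz
  linear_combination ((20) * z + (10) * z ^ 3 + (20) * z ^ 5 + (20) * z ^ 7 + (12) * z ^ 9) * h

theorem F3 (z : ℂ) (h : z ^ 11 = 1) : Fz (z ^ 3) = (20) + (24) * z + (20) * z ^ 2 + (14) * z ^ 3 + (22) * z ^ 4 + (20) * z ^ 5 + (18) * z ^ 6 + (20) * z ^ 7 + (12) * z ^ 8 + (18) * z ^ 9 + (10) * z ^ 10 := by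
  unfold Fz
  linear_combination ((24) * z + (20) * z ^ 2 + (22) * z ^ 4 + (20) * z ^ 5 + (20) * z ^ 7 + (12) * z ^ 8 + (10) * z ^ 10 + (20) * z ^ 13 + (20) * z ^ 16 + (12) * z ^ 19) * h

theorem F4 (z : ℂ) (h : z ^ 11 = 1) : Fz (z ^ 4) = (20) + (18) * z + (20) * z ^ 2 + (20) * z ^ 3 + (14) * z ^ 4 + (24) * z ^ 5 + (10) * z ^ 6 + (12) * z ^ 7 + (18) * z ^ 8 + (22) * z ^ 9 + (20) * z ^ 10 := by
  unfold Fz
  linear_combination ((18) * z + (20) * z ^ 2 + (20) * z ^ 3 + (24) * z ^ 5 + (10) * z ^ 6 + (12) * z ^ 7 + (22) * z ^ 9 + (20) * z ^ 10 + (20) * z ^ 13 + (20) * z ^ 14 + (10) * z ^ 17 + (12) * z ^ 18 + (20) * z ^ 21 + (20) * z ^ 25 + (12) * z ^ 29) * h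

theorem F5 (z : ℂ) (h : z ^ 11 = 1) : Fz (z ^ 5) = (20) + (20) * z + (10) * z ^ 2 + (22) * z ^ 3 + (18) * z ^ 4 + (14) * z ^ 5 + (12) * z ^ 6 + (20) * z ^ 7 + (20) * z ^ 8 + (24) * z ^ 9 + (18) * z ^ 10 := by
  unfold Fz
  linear_combination ((20) * z + (10) * z ^ 2 + (22) * z ^ 3 + (18) * z ^ 4 + (12) * z ^ 6 + (20) * z ^ 7 + (20) * z ^ 8 + (24) * z ^ 9 + (20) * z ^ 12 + (10) * z ^ 13 + (22) * z ^ 14 + (12) * z ^ 17 + (20) * z ^ 18 + (20) * z ^ 19 + (20) * z ^ 23 + (10) * z ^ 24 + (12) * z ^ 28 + (20) * z ^ 29 + (20) * z ^ 34 + (12) * z ^ 39) * h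

theorem F6 (z : ℂ) (h : z ^ 11 = 1) : Fz (z ^ 6) = (20) + (18) * z + (24) * z ^ 2 + (20) * z ^ 3 + (20) * z ^ 4 + (12) * z ^ 5 + (14) * z ^ 6 + (18) * z ^ 7 + (22) * z ^ 8 + (10) * z ^ 9 + (20) * z ^ 10 := by
  unfold Fz
  linear_combination ((18) * z + (24) * z ^ 2 + (20) * z ^ 3 + (20) * z ^ 4 + (12) * z ^ 5 + (18) * z ^ 7 + (22) * z ^ 8 + (10) * z ^ 9 + (20) * z ^ 10 + (24) * z ^ 13 + (20) * z ^ 14 + (20) * z ^ 15 + (12) * z ^ 16 + (22) * z ^ 19 + (10) * z ^ 20 + (20) * z ^ 21 + (20) * z ^ 25 + (20) * z ^ 26 + (12) * z ^ 27 + (10) * z ^ 31 + (20) * z ^ 32 + (20) * z ^ 37 + (12) * z ^ 38 + (20) * z ^ 43 + (12) * z ^ 49) * h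

theorem F7 (z : ℂ) (h : z ^ 11 = 1) : Fz (z ^ 7) = (20) + (20) * z + (22) * z ^ 2 + (18) * z ^ 3 + (12) * z ^ 4 + (10) * z ^ 5 + (24) * z ^ 6 + (14) * z ^ 7 + (20) * z ^ 8 + (20) * z ^ 9 + (18) * z ^ 10 := by
  unfold Fz
  linear_combination ((20) * z + (22) * z ^ 2 + (18) * z ^ 3 + (12) * z ^ 4 + (10) * z ^ 5 + (24) * z ^ 6 + (20) * z ^ 8 + (20) * z ^ 9 + (18) * z ^ 10 + (20) * z ^ 12 + (22) * z ^ 13 + (12) * z ^ 15 + (10) * z ^ 16 + (24) * z ^ 17 + (20) * z ^ 19 + (20) * z ^ 20 + (20) * z ^ 23 + (22) * z ^ 24 + (12) * z ^ 26 + (10) * z ^ 27 + (20) * z ^ 30 + (20) * z ^ 31 + (20) * z ^ 34 + (12) * z ^ 37 + (10) * z ^ 38 + (20) * z ^ 41 + (20) * z ^ 45 + (12) * z ^ 48 + (20) * z ^ 52 + (12) * z ^ 59) * h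

theorem F8 (z : ℂ) (h : z ^ 11 = 1) : Fz (z ^ 8) = (20) + (10) * z + (18) * z ^ 2 + (12) * z ^ 3 + (20) * z ^ 4 + (18) * z ^ 5 + (20) * z ^ 6 + (22) * z ^ 7 + (14) * z ^ 8 + (20) * z ^ 9 + (24) * z ^ 10 := by
  unfold Fz
  linear_combination ((10) * z + (18) * z ^ 2 + (12) * z ^ 3 + (20) * z ^ 4 + (18) * z ^ 5 + (20) * z ^ 6 + (22) * z ^ 7 + (20) * z ^ 9 + (24) * z ^ 10 + (10) * z ^ 12 + (18) * z ^ 13 + (12) * z ^ 14 + (20) * z ^ 15 + (20) * z ^ 17 + (22) * z ^ 18 + (20) * z ^ 20 + (24) * z ^ 21 + (10) * z ^ 23 + (12) * z ^ 25 + (20) * z ^ 26 + (20) * z ^ 28 + (22) * z ^ 29 + (20) * z ^ 31 + (10) * z ^ 34 + (12) * z ^ 36 + (20) * z ^ 37 + (20) * z ^ 39 + (20) * z ^ 42 + (10) * z ^ 45 + (12) * z ^ 47 + (20) * z ^ 50 + (20) * z ^ 53 + (12) * z ^ 58 + (20) * z ^ 61 + (12) * z ^ 69) * h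

theorem F9 (z : ℂ) (h : z ^ 11 = 1) : Fz (z ^ 9) = (20) + (22) * z + (12) * z ^ 2 + (24) * z ^ 3 + (20) * z ^ 4 + (18) * z ^ 5 + (20) * z ^ 6 + (18) * z ^ 7 + (10) * z ^ 8 + (14) * z ^ 9 + (20) * z ^ 10 := by
  unfold Fz
  linear_combination ((22) * z + (12) * z ^ 2 + (24) * z ^ 3 + (20) * z ^ 4 + (18) * z ^ 5 + (20) * z ^ 6 + (18) * z ^ 7 + (10) * z ^ 8 + (20) * z ^ 10 + (22) * z ^ 12 + (12) * z ^ 13 + (24) * z ^ 14 + (20) * z ^ 15 + (18) * z ^ 16 + (20) * z ^ 17 + (10) * z ^ 19 + (20) * z ^ 21 + (22) * z ^ 23 + (12) * z ^ 24 + (24) * z ^ 25 + (20) * z ^ 26 + (20) * z ^ 28 + (10) * z ^ 30 + (20) * z ^ 32 + (22) * z ^ 34 + (12) * z ^ 35 + (20) * z ^ 37 + (20) * z ^ 39 + (10) * z ^ 41 + (20) * z ^ 43 + (12) * z ^ 46 + (20) * z ^ 48 + (20) * z ^ 50 + (10) * z ^ 52 + (12) * z ^ 57 + (20) * z ^ 59 + (20) * z ^ 61 + (12) * z ^ 68 + (20)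 * z ^ 70 + (12) * z ^ 79) * h

theorem F10 (z : ℂ) (h : z ^ 11 = 1) : Fz (z ^ 10) = (20) + (12) * z + (20) * z ^ 2 + (20) * z ^ 3 + (10) * z ^ 4 + (20) * z ^ 5 + (22) * z ^ 6 + (24) * z ^ 7 + (18) * z ^ 8 + (18) * z ^ 9 + (14) * z ^ 10 := by
  unfold Fz
  linear_combination ((12) * z + (20) * z ^ 2 + (20) * z ^ 3 + (10) * z ^ 4 + (20) * z ^ 5 + (22) * z ^ 6 + (24) * z ^ 7 + (18) * z ^ 8 + (18) * z ^ 9 + (12) * z ^ 12 + (20) * z ^ 13 + (20) * z ^ 14 + (10) * z ^ 15 + (20) * z ^ 16 + (22) * z ^ 17 + (24) * z ^ 18 + (18) * z ^ 19 + (12) * z ^ 23 + (20) * z ^ 24 + (20) * z ^ 25 + (10) * z ^ 26 + (20) * z ^ 27 + (22) * z ^ 28 + (24) * z ^ 29 + (12) * z ^ 34 + (20) * z ^ 35 + (20) * z ^ 36 + (10) * z ^ 37 + (20) * z ^ 38 + (22) * z ^ 39 + (12) * z ^ 45 + (20) * z ^ 46 + (20) * z ^ 47 + (10) * z ^ 48 + (20) * z ^ 49 + (12) * z ^ 56 + (20)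 * z ^ 57 + (20) * z ^ 58 + (10) * z ^ 59 + (12) * z ^ 67 + (20) * z ^ 68 + (20) * z ^ 69 + (12) * z ^ 78 + (20) * z ^ 79 + (12) * z ^ 89) * h

theorem M2 (z : ℂ) (h : 1 + z + z ^ 2 + z ^ 3 + z ^ 4 + z ^ 5 + z ^ 6 + z ^ 7 + z ^ 8 + z ^ 9 + z ^ 10 = 0) :
    ((20) + (14) * z + (18) * z ^ 2 + (18) * z ^ 3 + (24) * z ^ 4 + (22) * z ^ 5 + (20) * z ^ 6 + (10) * z ^ 7 + (20) * z ^ 8 + (20) * z ^ 9 + (12) * z ^ 10) * ((20) + (20) * z + (14) * z ^ 2 + (10) * z ^ 3 + (18) * z ^ 4 + (20) * z ^ 5 + (18) * z ^ 6 + (20) * z ^ 7 + (24) * z ^ 8 + (12) * z ^ 9 + (22) * z ^ 10) = (-120) + (-56) * z + (-60) * z ^ 2 + (-88) * z ^ 3 + (-96) * z ^ 4 + (8) * z ^ 5 + (-152) * z ^ 6 + (-200) * z ^ 7 + (-92) * z ^ 8 + (-112) * z ^ 9 := by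
  linear_combination ((520) + (216) * z + (244) * z ^ 2 + (224) * z ^ 3 + (484) * z ^ 4 + (308) * z ^ 5 + (476) * z ^ 6 + (212) * z ^ 7 + (384) * z ^ 8 + (320) * z ^ 9 + (264) * z ^ 10) * h

theorem M3 (z : ℂ) (h : 1 + z + z ^ 2 + z ^ 3 + z ^ 4 + z ^ 5 + z ^ 6 + z ^ 7 + z ^ 8 + z ^ 9 + z ^ 10 = 0) :
    ((-120) + (-56) * z + (-60) * z ^ 2 + (-88) * z ^ 3 + (-96) * z ^ 4 + (8) * z ^ 5 + (-152) * z ^ 6 + (-200) * z ^ 7 + (-92) * z ^ 8 + (-112) * z ^ 9) * ((20) + (24) * z + (20) * z ^ 2 + (14) * z ^ 3 + (22) * z ^ 4 + (20) * z ^ 5 + (18) * z ^ 6 + (20) * z ^ 7 + (12) * z ^ 8 + (18) * z ^ 9 + (10) * z ^ 10) = (-912) + (-576) * z + (-1472) * z ^ 2 + (392) * z ^ 3 + (-640) * z ^ 4 + (88) * z ^ 5 + (1328) * z ^ 6 + (-1384) * z ^ 7 + (-1272) * z ^ 8 + (-1008) * z ^ 9 := by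
  linear_combination ((-1488) + (-1936) * z + (-48) * z ^ 2 + (-2920) * z ^ 3 + (-1624) * z ^ 4 + (-448) * z ^ 5 + (-3464) * z ^ 6 + (-2064) * z ^ 7 + (-1816) * z ^ 8 + (-1120) * z ^ 9) * h

theorem M4 (z : ℂ) (h : 1 + z + z ^ 2 + z ^ 3 + z ^ 4 + z ^ 5 + z ^ 6 + z ^ 7 + z ^ 8 + z ^ 9 + z ^ 10 = 0) :
    ((-912) + (-576) * z + (-1472) * z ^ 2 + (392) * z ^ 3 + (-640) * z ^ 4 + (88) * z ^ 5 + (1328) * z ^ 6 + (-1384) * z ^ 7 + (-1272) * z ^ 8 + (-1008) * z ^ 9) * ((20) + (18) * z + (20) * z ^ 2 + (20) * z ^ 3 + (14) * z ^ 4 + (24) * z ^ 5 + (10) * z ^ 6 + (12) * z ^ 7 + (18) * z ^ 8 + (22) * z ^ 9 + (20) * z ^ 10) = (14672) + (-7456) * z + (4416) * z ^ 2 + (20768) * z ^ 3 + (30912) * z ^ 4 + (9472) * z ^ 5 + (15488) * z ^ 6 + (688) * z ^ 7 + (29872) * z ^ 8 + (7184) * z ^ 9 := by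
  linear_combination ((-32912) + (12432) * z + (-41984) * z ^ 2 + (-6720) * z ^ 3 + (-21200) * z ^ 4 + (19600) * z ^ 5 + (34928) * z ^ 6 + (-26192) * z ^ 7 + (-27456) * z ^ 8 + (-20160) * z ^ 9) * h

theorem M5 (z : ℂ) (h : 1 + z + z ^ 2 + z ^ 3 + z ^ 4 + z ^ 5 + z ^ 6 + z ^ 7 + z ^ 8 + z ^ 9 + z ^ 10 = 0) :
    ((14672) + (-7456) * z + (4416) * z ^ 2 + (20768) * z ^ 3 + (30912) * z ^ 4 + (9472) * z ^ 5 + (15488) * z ^ 6 + (688) * z ^ 7 + (29872) * z ^ 8 + (7184) * z ^ 9) * ((20) + (20) * z + (10) * z ^ 2 + (22) * z ^ 3 + (18) * z ^ 4 + (14) * z ^ 5 + (12) * z ^ 6 + (20) * z ^ 7 + (20) * z ^ 8 + (24) * z ^ 9 + (18) * z ^ 10) = (542016) + (592448) * z + (427904) * z ^ 2 + (489504) * z ^ 3 + (588736) * z ^ 4 + (391424) * z ^ 5 + (460672) * z ^ 6 + (619328) * z ^ 7 + (319552) * z ^ 8 + (403840) * z ^ 9 := by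
  linear_combination ((-248576) + (-199552) * z + (106144) * z ^ 2 + (604384) * z ^ 3 + (326688) * z ^ 4 + (203200) * z ^ 5 + (163424) * z ^ 6 + (162880) * z ^ 7 + (580800) * z ^ 8 + (129312) * z ^ 9) * h

theorem M6 (z : ℂ) (h : 1 + z + z ^ 2 + z ^ 3 + z ^ 4 + z ^ 5 + z ^ 6 + z ^ 7 + z ^ 8 + z ^ 9 + z ^ 10 = 0) :
    ((542016) + (592448) * z + (427904) * z ^ 2 + (489504) * z ^ 3 + (588736) * z ^ 4 + (391424) * z ^ 5 + (460672) * z ^ 6 + (619328) * z ^ 7 + (319552) * z ^ 8 + (403840) * z ^ 9) * ((20) + (18) * z + (24) * z ^ 2 + (20) * z ^ 3 + (20) * z ^ 4 + (12) * z ^ 5 + (14) * z ^ 6 + (18) * z ^ 7 + (22) * z ^ 8 + (10) * z ^ 9 + (20) * z ^ 10) = (3344896) + (-1062144) * z + (925888) * z ^ 2 + (4375360) * z ^ 3 + (6543360) * z ^ 4 + (2323520) * z ^ 5 + (3433536) * z ^ 6 + (784960) * z ^ 7 + (6260672) * z ^ 8 + (1341184) * z ^ 9 :=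 by
  linear_combination ((7495424) + (15171968) * z + (8637248) * z ^ 2 + (6871424) * z ^ 3 + (8825344) * z ^ 4 + (7760128) * z ^ 5 + (5239424) * z ^ 6 + (14037120) * z ^ 7 + (2352640) * z ^ 8 + (8076800) * z ^ 9) * h

theorem M7 (z : ℂ) (h : 1 + z + z ^ 2 + z ^ 3 + z ^ 4 + z ^ 5 + z ^ 6 + z ^ 7 + z ^ 8 + z ^ 9 + z ^ 10 = 0) :
    ((3344896) + (-1062144) * z + (925888) * z ^ 2 + (4375360) * z ^ 3 + (6543360) * z ^ 4 + (2323520) * z ^ 5 + (3433536) * z ^ 6 + (784960) * z ^ 7 + (6260672) * z ^ 8 + (1341184) * z ^ 9) * ((20) + (20) * z + (22) * z ^ 2 + (18) * z ^ 3 + (12) * z ^ 4 + (10) * z ^ 5 + (24) * z ^ 6 + (14) * z ^ 7 + (20) * z ^ 8 + (20) * z ^ 9 + (18) * z ^ 10) = (-31775232) + (-16155520) * z + (-46337920) * z ^ 2 + (31540864) * z ^ 3 + (-13108864) * z ^ 4 + (13553536) * z ^ 5 + (65880576) * z ^ 6 + (-43020160) * z ^ 7 + (-39965824)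 * z ^ 8 + (-30852224) * z ^ 9 := by
  linear_combination ((98673152) + (-36862592) * z + (55389952) * z ^ 2 + (-5875456) * z ^ 3 + (161547904) * z ^ 4 + (24538240) * z ^ 5 + (55326464) * z ^ 6 + (26650624) * z ^ 7 + (115374464) * z ^ 8 + (24141312) * z ^ 9) * h

theorem M8 (z : ℂ) (h : 1 + z + z ^ 2 + z ^ 3 + z ^ 4 + z ^ 5 + z ^ 6 + z ^ 7 + z ^ 8 + z ^ 9 + z ^ 10 = 0) :
    ((-31775232) + (-16155520) * z + (-46337920) * z ^ 2 + (31540864) * z ^ 3 + (-13108864) * z ^ 4 + (13553536) * z ^ 5 + (65880576) * z ^ 6 + (-43020160) * z ^ 7 + (-39965824) * z ^ 8 + (-30852224) * z ^ 9) * ((20) + (10) * z + (18) * z ^ 2 + (12) * z ^ 3 + (20) * z ^ 4 + (18) * z ^ 5 + (20) * z ^ 6 + (22) * z ^ 7 + (14) * z ^ 8 + (20) * z ^ 9 + (24) * z ^ 10) = (-949931520) + (-348497408) * z + (-437875712) * z ^ 2 + (-641679104) * z ^ 3 + (-780601600) * z ^ 4 +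 (24357120) * z ^ 5 + (-1235817216) * z ^ 6 + (-1631296256) * z ^ 7 + (-757654528) * z ^ 8 + (-930387456) * z ^ 9 := by
  linear_combination ((314426880) + (-606792192) * z + (-930026752) * z ^ 2 + (1359407104) * z ^ 3 + (-966635520) * z ^ 4 + (61861376) * z ^ 5 + (1746191616) * z ^ 6 + (-687507200) * z ^ 7 + (-835770880) * z ^ 8 + (-740453376) * z ^ 9) * h

theorem M9 (z : ℂ) (h : 1 + z + z ^ 2 + z ^ 3 + z ^ 4 + z ^ 5 + z ^ 6 + z ^ 7 + z ^ 8 + z ^ 9 + z ^ 10 = 0) :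
    ((-949931520) + (-348497408) * z + (-437875712) * z ^ 2 + (-641679104) * z ^ 3 + (-780601600) * z ^ 4 + (24357120) * z ^ 5 + (-1235817216) * z ^ 6 + (-1631296256) * z ^ 7 + (-757654528) * z ^ 8 + (-930387456) * z ^ 9) * ((20) + (22) * z + (12) * z ^ 2 + (24) * z ^ 3 + (20) * z ^ 4 + (18) * z ^ 5 + (20) * z ^ 6 + (18) * z ^ 7 + (10) * z ^ 8 + (14) * z ^ 9 + (20) * z ^ 10) = (12109702656) + (3868894208) * z + (9949777408) * z ^ 2 + (10068236800) * z ^ 3 + (20689170944) * z ^ 4 + (17566025728) * z ^ 5 + (12893945344) * z ^ 6 + (-2810620416) * z ^ 7 + (12821380096) * z ^ 8 + (12833648128) * z ^ 9 := by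
  linear_combination ((-31108333056) + (-629002752) * z + (-6036077056) * z ^ 2 + (-21741997056) * z ^ 3 + (-23519810048) * z ^ 4 + (6505219584) * z ^ 5 + (-19341048320) * z ^ 6 + (-24358448128) * z ^ 7 + (-9570765824) * z ^ 8 + (-18607749120) * z ^ 9) * h

theorem M10 (z : ℂ) (h : 1 + z + z ^ 2 + z ^ 3 + z ^ 4 + z ^ 5 + z ^ 6 + z ^ 7 + z ^ 8 + z ^ 9 + z ^ 10 = 0) :
    ((12109702656) + (3868894208) * z + (9949777408) * z ^ 2 + (10068236800) * z ^ 3 + (20689170944) * z ^ 4 + (17566025728) * z ^ 5 + (12893945344) * z ^ 6 + (-2810620416) * z ^ 7 + (12821380096) * z ^ 8 + (12833648128) * z ^ 9) * ((20) + (12) * z + (20) * z ^ 2 + (20) * z ^ 3 + (10) * z ^ 4 + (20) * z ^ 5 + (22) * z ^ 6 + (24) * z ^ 7 + (18) * z ^ 8 + (18) * z ^ 9 + (14) * z ^ 10) = (332998454272) := by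
  linear_combination ((-90804401152) + (313498717184) * z + (264922015744) * z ^ 2 + (152717670400) * z ^ 3 + (291738717184) * z ^ 4 + (348761125888) * z ^ 5 + (246274641920) * z ^ 6 + (11936834560) * z ^ 7 + (230833913856) * z ^ 8 + (179671073792) * z ^ 9) * h

/-- The Jacobi sum as a polynomial in the root of unity. -/
def Jz (z : ℂ) : ℂ := (20) + (20) * z + (12) * z ^ 2 + (19) * z ^ 3 + (14) * z ^ 4 + (18) * z ^ 5 + (18) * z ^ 6 + (24) * z ^ 7 + (22) * z ^ 8 + (20) * z ^ 9 + (10) * z ^ 10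

theorem FJ (z : ℂ) (h : z ^ 11 = 1) : 1 + z ^ 8 * Jz z = Fz z := by
  unfold Fz Jz
  linear_combination ((19) + (14) * z + (18) * z ^ 2 + (18) * z ^ 3 + (24) * z ^ 4 + (22) * z ^ 5 + (20) * z ^ 6 + (10) * z ^ 7) * h

theorem prod_eq (z : ℂ) (h : z ^ 11 = 1) (h1 : z ≠ 1) :
    ∏ j : Fin 10, Fz (z ^ ((j : ℕ) + 1)) = 332998454272 := by
  have hs : 1 + z + z ^ 2 + z ^ 3 + z ^ 4 + z ^ 5 + z ^ 6 + z ^ 7 + z ^ 8 + z ^ 9 + z ^ 10 = 0 := by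
    have h2 : (z - 1) * (1 + z + z ^ 2 + z ^ 3 + z ^ 4 + z ^ 5 + z ^ 6 + z ^ 7 + z ^ 8 + z ^ 9 + z ^ 10) = 0 := by
      linear_combination h
    exact (mul_eq_zero.1 h2).resolve_left (sub_ne_zero.2 h1)
  simp only [Fin.prod_univ_succ, Fin.prod_univ_zero, Fin.val_zero, Fin.val_succ, mul_one, zero_add]
  norm_num only [pow_one]
  rw [F2 z h, F3 z h, F4 z h, F5 z h, F6 z h, F7 z h, F8 z h, F9 z h, F10 z h]
  simp only [← mul_assoc]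
  unfold Fz
  rw [M2 z hs, M3 z hs, M4 z hs, M5 z hs, M6 z hs, M7 z hs, M8 z hs, M9 z hs, M10 z hs]

end Pool.Agent.Q5.Jac
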