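import Mathlib

/-!
# Power sums determine the product
-/

set_option autoImplicit false

namespace Pool.Agent.Q5.Jac

open Finset Polynomial

theorem sum_poly {ι : Type} [Fintype ι] (α β : ι → ℂ)
    (h : ∀ n : ℕ, 1 ≤ n → ∑ i, α i ^ n = ∑ i, β i ^ n) (P : ℂ[X]) (hP : P.eval 0 = 0) :
    ∑ i, P.eval (α i) = ∑ i, P.eval (β i) := by
  have key : ∀ γ : ι → ℂ, ∑ i, P.eval (γ i) =
      ∑ n ∈ range (P.natDegree + 1), P.coeff n * ∑ i, γ i ^ n := by
    intro γ
    rw [sum_congr rfl fun i _ => eval_eq_sum_range (γ i), sum_comm]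
    exact sum_congr rfl fun n _ => (mul_sum _ _ _).symm
  rw [key, key]
  refine sum_congr rfl fun n _ => ?_
  rcases Nat.eq_zero_or_pos n with rfl | hn
  · rw [coeff_zero_eq_eval_zero, hP]
    simp
  · rw [h n hn]

theorem prod_unique {ι : Type} [Fintype ι] (α β : ι → ℂ)
    (h : ∀ n : ℕ, 1 ≤ n → ∑ i, α i ^ n = ∑ i, β i ^ n) :
    ∏ i, (1 - α i) = ∏ i, (1 - β i) := by
  classical
  set Z : Finset ℂ := univ.image α ∪ univ.image β ∪ {0} with hZ
  have h0 : (0 : ℂ) ∈ Z := by simp [hZ]
  have hα : ∀ i ∈ (univ : Finset ι), α i ∈ Z := by intro i _; simp [hZ]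
  have hβ : ∀ i ∈ (univ : Finset ι), β i ∈ Z := by intro i _; simp [hZ]
  have hcard : ∀ z ∈ Z, z ≠ 0 →
      #(univ.filter (fun i => α i = z)) = #(univ.filter (fun i => β i = z)) := by
    intro z hz hz0
    have h1 : ∀ w ∈ Z, (Lagrange.basis Z id z).eval w = if w = z then 1 else 0 := by
      intro w hw
      split_ifs with hwz
      · subst hwz
        exact Lagrange.eval_basis_self (Function.injective_id.injOn) hz
      · exact Lagrange.eval_basis_of_ne (v := id) (Ne.symm hwz) hw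
    have h2 := sum_poly α β h (Lagrange.basis Z id z) (by
      rw [h1 0 h0, if_neg (Ne.symm hz0)])
    rw [sum_congr rfl fun i _ => h1 _ (hα i (mem_univ _)),
      sum_congr rfl fun i _ => h1 _ (hβ i (mem_univ _)), sum_boole, sum_boole] at h2
    exact_mod_cast h2
  rw [← prod_fiberwise_of_maps_to hα, ← prod_fiberwise_of_maps_to hβ]
  refine prod_congr rfl fun z hz => ?_
  have e1 : ∏ i ∈ univ.filter (fun i => α i = z), (1 - α i) =
      (1 - z) ^ #(univ.filter (fun i => α i = z)) := by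
    rw [← prod_const]
    exact prod_congr rfl fun i hi => by rw [(mem_filter.1 hi).2]
  have e2 : ∏ i ∈ univ.filter (fun i => β i = z), (1 - β i) =
      (1 - z) ^ #(univ.filter (fun i => β i = z)) := by
    rw [← prod_const]
    exact prod_congr rfl fun i hi => by rw [(mem_filter.1 hi).2]
  rw [e1, e2]
  by_cases hz0 : z = 0
  · rw [hz0, sub_zero, one_pow, one_pow]
  · rw [hcard z hz hz0]

end Pool.Agent.Q5.Jac
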